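import Pool.Agent.H37.CTN.Stmts

/-!
# Row N44 of the board `ctn`
-/

set_option autoImplicit false

namespace Pool.CND

open Finset

private def n44ext {F : Type} [Zero F] {r : ℕ} (m : ℕ) (c : Fin (r + 1) → F) :
    Fin (r + m + 1) → F :=
  fun i => if h : i.val ≤ r then c ⟨i.val, by omega⟩ else 0

private theorem n44ext_lowi {F : Type} [Zero F] {r : ℕ} (m : ℕ) (c : Fin (r + 1) → F)
    (i : Fin (r + 1)) : n44ext m c (lowi m i) = c i := by
  have hi : (lowi m i).val ≤ r := by
    have := i.isLt
    simp only [lowi]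
    omega
  unfold n44ext
  rw [dif_pos hi]
  rfl

private theorem n44ext_high {F : Type} [Zero F] {r : ℕ} (m : ℕ) (c : Fin (r + 1) → F)
    (i : Fin (r + m + 1)) (hi : r < i.val) : n44ext m c i = 0 := by
  unfold n44ext
  rw [dif_neg (by omega)]

private theorem n44_sum {k F L : Type} [Field k] [Field F] [Field L] [Algebra F k] [Algebra k L]
    {r m : ℕ} (X : Fin (r + m + 1) → L) (c : Fin (r + 1) → F) :
    ∑ j : Fin (r + 1), cst k F L (c j) * lowX X j =
      ∑ i : Fin (r + m + 1), cst k F L (n44ext m c i) * X i := by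
  refine Fintype.sum_of_injective (lowi m) ?_ _ _ ?_ ?_
  · intro i j h
    have h1 := congrArg Fin.val h
    simp only [lowi] at h1
    exact Fin.ext h1
  · intro i hi
    have h1 : r < i.val := by
      by_contra hc
      apply hi
      exact ⟨⟨i.val, by omega⟩, Fin.ext rfl⟩
    rw [n44ext_high m c i h1]
    simp
  · intro i
    rw [n44ext_lowi]
    rfl

theorem n44_thm (h1 : S_MO1) (h2 : S_MO2) : S_N44 := by
  intro p k F L _ _ _ _ _ _ _ f q r m κ t X P hp hc hf hq hF hm hR hO
  have key : Mo q (r + 1) (lowX X) ≠ 0 ∧ P.ord (Mo q (r + 1) (lowX X)) =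
      ∑ i : Fin (r + 1), (q : ℤ) ^ (i : ℕ) * (if i = 0 then P.ord (X 0) else 0) := by
    refine h1 p k F L f q (r + 1) P (lowX X) (fun i => if i = 0 then P.ord (X 0) else 0) hp hc hf
      hq hF ?_
    intro i c hci hcj
    have hne : ∑ j : Fin (r + 1), cst k F L (c j) * lowX X j ≠ 0 := by
      rw [n44_sum]
      intro h0
      have h3 := hR.ind _ h0
      apply hci
      rw [← n44ext_lowi m c i, h3]
      rfl
    refine ⟨hne, ?_⟩
    by_cases hi : i = 0
    · subst hi
      simp only [if_true]
      have h4 : ∑ j : Fin (r + 1), cst k F L (c j) * lowX X j = cst k F L (c 0) * X 0 := by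
        rw [Finset.sum_eq_single (0 : Fin (r + 1))]
        · rfl
        · intro b _ hb
          rw [hcj b (Fin.pos_of_ne_zero hb)]
          simp
        · intro h
          exact absurd (Finset.mem_univ _) h
      rw [h4] at hne ⊢
      have h5 : cst k F L (c 0) ≠ 0 := left_ne_zero_of_mul hne
      have h6 : X 0 ≠ 0 := right_ne_zero_of_mul hne
      rw [P.ord_mul _ _ h5 h6]
      have h7 : P.ord (cst k F L (c 0)) = 0 := by
        apply P.ord_const
        intro h8
        apply h5
        simp only [cst, h8, map_zero]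
      rw [h7, zero_add]
    · simp only [hi, if_false]
      rw [n44_sum]
      refine hO.mid _ (fun j hj => n44ext_high m c j hj) ⟨lowi m i, ?_, ?_⟩
      · intro h
        apply hi
        have := congrArg Fin.val h
        simp only [lowi] at this
        exact Fin.ext this
      · rw [n44ext_lowi]
        exact hci
  refine ⟨?_, h2 p k F L f q r (lowX X) hp hc hf hq hF key.1⟩
  rw [key.2, Finset.sum_eq_single (0 : Fin (r + 1))]
  · simp
  · intro b _ hb
    simp [hb]
  · intro h
    exact absurd (Finset.mem_univ _) h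

end Pool.CND
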